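import Mathlib

set_option autoImplicit false

namespace Pool.Agent.Results.MP_bebd57_nt.OddBases

/-- The `b`-elated function: the leading digit times the sum of the squares of all digits
(`Nat.digits` lists the digits from the lowest one, so the leading digit is the last entry). -/
def E (b a : ℕ) : ℕ := (Nat.digits b a).getLastD 0 * ((Nat.digits b a).map (fun d => d ^ 2)).sum

/-- `a` is `b`-elated: some iterate of `E b` at `a` equals `1`. -/
def Elated (b a : ℕ) : Prop := ∃ k : ℕ, (E b)^[k] a = 1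

lemma sum_sq_mod_two (l : List ℕ) : (l.map (fun d => d ^ 2)).sum % 2 = l.sum % 2 := by
  induction l with
  | nil => rfl
  | cons d l ih =>
    simp only [List.map_cons, List.sum_cons]
    have h : d ^ 2 % 2 = d % 2 := by
      rcases Nat.mod_two_eq_zero_or_one d with h | h <;> simp [Nat.pow_mod, h]
    omega

lemma E_even {b a : ℕ} (hb : Odd b) (ha : Even a) : Even (E b a) := by
  have h1 : a ≡ (Nat.digits b a).sum [MOD 2] :=
    Nat.modEq_digits_sum 2 b (Nat.odd_iff.1 hb) a
  have h2 := sum_sq_mod_two (Nat.digits b a)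
  have h3 : ((Nat.digits b a).map (fun d => d ^ 2)).sum % 2 = 0 := by
    rw [h2, ← h1]
    exact Nat.even_iff.1 ha
  exact (Nat.even_iff.2 h3).mul_left _

lemma iter_even {b a : ℕ} (hb : Odd b) (ha : Even a) (k : ℕ) : Even ((E b)^[k] a) := by
  induction k with
  | zero => exact ha
  | succ k ih =>
    rw [Function.iterate_succ_apply']
    exact E_even hb ih

lemma fixed {b u c : ℕ} (hu : 1 ≤ u) (hub : u < b) (hcb : c * u < b)
    (h : b + c = u ^ 2 * (1 + c ^ 2)) : E b (u * (b + c)) = u * (b + c) := by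
  have hb1 : 1 < b := by omega
  have hd : Nat.digits b (u * (b + c)) = [c * u, u] := by
    have e : u * (b + c) = c * u + b * u := by ring
    rw [e, Nat.digits_add b hb1 (c * u) u hcb (Or.inr (by omega)),
      Nat.digits_of_lt b u (by omega) hub]
  unfold E
  rw [hd]
  simp only [List.getLastD_cons, List.map_cons, List.map_nil, List.sum_cons, List.sum_nil]
  show u * ((c * u) ^ 2 + (u ^ 2 + 0)) = u * (b + c)
  rw [h]
  ring

/-- In an odd base no even number is elated; and in every base `b = u²(1+c²) - c` with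
`u < b`, `c u < b` the two-digit number with digits `u, c u` is a fixed point larger than `1`. -/
theorem result :
    (∀ b : ℕ, 3 ≤ b → Odd b → ∀ a : ℕ, Even a → ¬ Elated b a) ∧
    (∀ b u c : ℕ, 2 < b → 1 ≤ u → u < b → c * u < b → b + c = u ^ 2 * (1 + c ^ 2) →
      1 < u * (b + c) ∧ E b (u * (b + c)) = u * (b + c) ∧ ¬ Elated b (u * (b + c))) ∧
    (∀ b : ℕ, 2 < b → (Odd b ∨ ∃ u c : ℕ, 1 ≤ u ∧ u < b ∧ c * u < b ∧
        b + c = u ^ 2 * (1 + c ^ 2)) → ∃ a : ℕ, 0 < a ∧ ¬ Elated b a) := by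
  have h1 : ∀ b : ℕ, 3 ≤ b → Odd b → ∀ a : ℕ, Even a → ¬ Elated b a := by
    rintro b _ hb a ha ⟨k, hk⟩
    have h := iter_even hb ha k
    rw [hk] at h
    exact absurd h (by decide)
  have h2 : ∀ b u c : ℕ, 2 < b → 1 ≤ u → u < b → c * u < b → b + c = u ^ 2 * (1 + c ^ 2) →
      1 < u * (b + c) ∧ E b (u * (b + c)) = u * (b + c) ∧ ¬ Elated b (u * (b + c)) := by
    intro b u c hb hu hub hcb h
    have hgt : 1 < u * (b + c) := by nlinarith
    have hfix := fixed hu hub hcb h
    refine ⟨hgt, hfix, ?_⟩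
    rintro ⟨k, hk⟩
    rw [Function.iterate_fixed hfix k] at hk
    omega
  refine ⟨h1, h2, ?_⟩
  rintro b hb (ho | ⟨u, c, hu, hub, hcb, h⟩)
  · exact ⟨2, by norm_num, h1 b (by omega) ho 2 (by decide)⟩
  · obtain ⟨h3, _, h4⟩ := h2 b u c hb hu hub hcb h
    exact ⟨_, by omega, h4⟩

end Pool.Agent.Results.MP_bebd57_nt.OddBases
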